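import Pool.Agent.H361R2.PA.MultA

set_option autoImplicit false
set_option maxHeartbeats 4000000

/-! # Prime-free translates of sets with few elements free of medium primes, at multiples -/

namespace Pool.Agent.Q16.MT

open Finset Filter Pool.Agent.H318R2.Cr
open Pool.Agent.H361R2.PA

open scoped Classical

/-- Sets with few elements free of medium primes. -/
theorem core (D : ℕ) : ∃ c : ℝ, 0 < c ∧ ∃ X₀ : ℝ, ∀ X : ℝ, X₀ ≤ X →
    ∀ α : ℕ, 1 ≤ α → Real.log α ≤ (Real.log X) ^ (D + 1) →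
    ∀ A : Finset ℤ, (A.card : ℝ) ≤ (Real.log X) ^ 2 →
    (∀ a ∈ A, |(a : ℝ)| ≤ Real.exp ((Real.log X) ^ (D + 1))) →
    ((A.filter (fun a => ∀ p : ℕ, p.Prime → (p : ℝ) ≤ Real.log X / 10 →
      WW (Real.log X / 10) < Real.log p → ¬ (p : ℤ) ∣ a)).card : ℝ) ≤
      c * (((Nat.totient α : ℝ) / α) * (Real.log X * (Real.log (Real.log X) *
        Real.log (Real.log (Real.log (Real.log X))) / Real.log (Real.log (Real.log X)))) +
        Real.log X) →
    ∀ z : ℤ, ∃ n : ℤ, (z : ℝ) + X / 4 < n ∧ (n : ℝ) ≤ z + X ∧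
      ∀ a ∈ A, ¬ Prime ((α : ℤ) * n + a) := by
  obtain ⟨c₀, hc₀, X₁, hass⟩ := assembleM (D + 1)
  obtain ⟨c₂, hc₂, X₂, hfacts⟩ := facts 1
  set c : ℝ := min (c₀ / (2 * c₂)) (c₀ / 2) with hc
  have hc0 : 0 < c := by positivity
  have hcA : c ≤ c₀ / (2 * c₂) := min_le_left _ _
  have hcB : c ≤ c₀ / 2 := min_le_right _ _
  refine ⟨c, hc0, max X₁ X₂, ?_⟩
  intro X hX α hα1 hαL A hAcard hAb hA0c z
  have hX1 : X₁ ≤ X := (le_max_left _ _).trans hX
  obtain ⟨hX0, g1, g2, g3, g4, g5, g6, g7, g8, g9, g10, g11, g12, g13, g14⟩ :=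
    hfacts X ((le_max_right _ _).trans hX)
  set L1 := Real.log X with hL1
  set u₂ := Real.log L1 with hu₂
  set u₃ := Real.log u₂ with hu₃
  set u₄ := Real.log u₃ with hu₄
  set y := L1 / 10 with hy
  have hy0 : 0 < y := by rw [hy]; linarith
  have hu₃0 : 0 < u₃ := by linarith
  have hu₂0 : 0 < u₂ := by linarith
  have hu₄0 : 0 < u₄ := by linarith
  have hα0 : (0 : ℝ) < α := by exact_mod_cast (by omega : 0 < α)
  have hφ0 : (0 : ℝ) < (Nat.totient α : ℝ) := by exact_mod_cast Nat.totient_pos.2 (by omega)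
  set ρ : ℝ := (Nat.totient α : ℝ) / α with hρ
  have hρ0 : 0 < ρ := by positivity
  set v : ℕ := ⌊Real.exp (WW y)⌋₊ with hv
  have hvle : (v : ℝ) ≤ Real.exp (WW y) := Nat.floor_le (Real.exp_pos _).le
  set A0 := A.filter (fun a => ∀ p : ℕ, p.Prime → (p : ℝ) ≤ y →
      WW y < Real.log p → ¬ (p : ℤ) ∣ a) with hA0def
  obtain ⟨b, hb⟩ := presieve ((Pz v).filter (fun p => ¬ p ∣ α))
    (fun p hp => (mem_Pz.1 (mem_filter.1 hp).1).1) A0
  have hprod := prodM α v (by omega)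
  have hprod1 := prodM_one α v
  have hsol : ∀ p : ℕ, ∃ β : ℕ, p.Prime → ¬ p ∣ α → (p : ℤ) ∣ (α : ℤ) * β - (b p : ℤ) := by
    intro p
    by_cases h : p.Prime ∧ ¬ p ∣ α
    · obtain ⟨β, hβ⟩ := solveM p α (b p) h.1 h.2
      exact ⟨β, fun _ _ => hβ⟩
    · exact ⟨0, fun h1 h2 => absurd ⟨h1, h2⟩ h⟩
  choose β hβ using hsol
  set b' : ℕ → ℕ := fun p => if Real.log p ≤ WW y then β p else 0 with hb'
  have hS : (((A.filter (fun a => ∀ p : ℕ, p.Prime → (p : ℝ) ≤ L1 / 10 →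
      ¬ (p : ℤ) ∣ (α : ℤ) * (b' p : ℤ) + a)).card : ℕ) : ℝ) ≤ c₀ * L1 := by
    have h1 : (A.filter (fun a => ∀ p : ℕ, p.Prime → (p : ℝ) ≤ L1 / 10 →
        ¬ (p : ℤ) ∣ (α : ℤ) * (b' p : ℤ) + a)) ⊆
        A0.filter (fun a => ∀ p ∈ (Pz v).filter (fun p => ¬ p ∣ α),
          ¬ (p : ℤ) ∣ (b p : ℤ) + a) := by
      intro a ha
      rw [mem_filter] at ha
      obtain ⟨haA, hsur⟩ := ha
      rw [mem_filter, hA0def, mem_filter]
      refine ⟨⟨haA, ?_⟩, ?_⟩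
      · intro p hp hpy hpW hpa
        apply hsur p hp hpy
        have h4 : b' p = 0 := by
          rw [hb']
          simp only [not_le.2 hpW, if_false]
        rw [h4]
        simpa using hpa
      · intro p hp
        rw [mem_filter, mem_Pz] at hp
        obtain ⟨⟨hpp, hpv⟩, hpQ⟩ := hp
        have hp0 : (0 : ℝ) < p := by exact_mod_cast hpp.pos
        have h2 : (p : ℝ) ≤ Real.exp (WW y) := le_trans (by exact_mod_cast hpv) hvle
        have h3 : Real.log p ≤ WW y := by rwa [Real.log_le_iff_le_exp hp0]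
        have h4 : (p : ℝ) ≤ y := by
          refine h2.trans ?_
          calc Real.exp (WW y) ≤ Real.exp (Real.log y) := Real.exp_le_exp.2 g10
            _ = y := Real.exp_log hy0
        have h5 := hsur p hpp h4
        have h6 : b' p = β p := by
          rw [hb']
          simp only [h3, if_true]
        rw [h6] at h5
        intro h7
        apply h5
        have h8 := dvd_add (hβ p hpp hpQ) h7
        refine h8.trans (dvd_of_eq ?_)
        ring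
    have h2 : (((A.filter (fun a => ∀ p : ℕ, p.Prime → (p : ℝ) ≤ L1 / 10 →
        ¬ (p : ℤ) ∣ (α : ℤ) * (b' p : ℤ) + a)).card : ℕ) : ℝ) ≤
        ((A0.filter (fun a => ∀ p ∈ (Pz v).filter (fun p => ¬ p ∣ α),
          ¬ (p : ℤ) ∣ (b p : ℤ) + a)).card : ℝ) := by
      exact_mod_cast card_le_card h1
    refine h2.trans (hb.trans ?_)
    set W₂ := ∏ p ∈ (Pz v).filter (fun p => ¬ p ∣ α), (1 - 1 / (p : ℝ)) with hW₂
    have hW0 : 0 ≤ W₂ := prod_nonneg fun p hp =>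
      (one_sub_inv_pos (mem_Pz.1 (mem_filter.1 hp).1).1).le
    have hWρ : W₂ * ρ ≤ c₂ * u₃ / (u₂ * u₄) := by
      have e1 : W₂ * ρ ≤ V v * ((α : ℝ) / (Nat.totient α : ℝ)) * ρ := by gcongr
      have e2 : V v * ((α : ℝ) / (Nat.totient α : ℝ)) * ρ = V v := by
        rw [hρ]
        field_simp
      rw [e2] at e1
      exact e1.trans g14
    have hL1p : 0 ≤ L1 := by linarith
    have hM0 : 0 ≤ L1 * (u₂ * u₄ / u₃) := by positivity
    have k1 : c * (ρ * (L1 * (u₂ * u₄ / u₃))) * W₂ ≤ c₀ / 2 * L1 := by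
      calc c * (ρ * (L1 * (u₂ * u₄ / u₃))) * W₂ = c * (L1 * (u₂ * u₄ / u₃)) * (W₂ * ρ) := by ring
        _ ≤ c₀ / (2 * c₂) * (L1 * (u₂ * u₄ / u₃)) * (c₂ * u₃ / (u₂ * u₄)) := by gcongr
        _ = c₀ / 2 * L1 := by field_simp
    have k2 : c * L1 * W₂ ≤ c₀ / 2 * L1 := by
      calc c * L1 * W₂ ≤ c₀ / 2 * L1 * 1 := by gcongr
        _ = _ := mul_one _
    calc (A0.card : ℝ) * W₂ ≤ c * (ρ * (L1 * (u₂ * u₄ / u₃)) + L1) * W₂ := by gcongr
      _ = c * (ρ * (L1 * (u₂ * u₄ / u₃))) * W₂ + c * L1 * W₂ := by ring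
      _ ≤ c₀ * L1 := by linarith
  obtain ⟨n, hn1, hn2, hn3, hn4⟩ := hass X hX1 α hα1 hαL A hAcard hAb b' hS z
  exact ⟨n, hn1, hn2, hn4⟩

end Pool.Agent.Q16.MT
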