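import Pool.Agent.Q16.MT.Core

set_option autoImplicit false
set_option maxHeartbeats 4000000

/-! # Prime-free sets `α n + j t(i,j)` -/

namespace Pool.Agent.Q16.MT

open Finset Filter Pool.Agent.H318R2.Cr
open Pool.Agent.H361R2.PA

open scoped Classical

theorem mono (D : ℕ) : ∃ c : ℝ, 0 < c ∧ ∃ X₀ : ℝ, ∀ X : ℝ, X₀ ≤ X →
    ∀ α : ℕ, 1 ≤ α → Real.log α ≤ (Real.log X) ^ D →
    ∀ (k J : ℕ) (t : ℕ → ℕ → ℤ) (B : Finset ℤ),
    Real.log X ≤ J → (k : ℝ) * J ≤ c * (((Nat.totient α : ℝ) / α) * FF 1 X) →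
    (∀ i j, i < k → 1 ≤ j → j ≤ J → |(t i j : ℝ)| ≤ Real.exp ((Real.log X) ^ D)) →
    (B.card : ℝ) ≤ c * (((Nat.totient α : ℝ) / α) * (Real.log X * (Real.log (Real.log X) *
        Real.log (Real.log (Real.log (Real.log X))) / Real.log (Real.log (Real.log X)))) +
        Real.log X) →
    (∀ b ∈ B, |(b : ℝ)| ≤ Real.exp ((Real.log X) ^ D)) →
    ∀ z : ℤ, ∃ n : ℤ, (z : ℝ) + X / 4 < n ∧ (n : ℝ) ≤ z + X ∧
      (∀ j : ℤ, |(j : ℝ)| ≤ c * (((Nat.totient α : ℝ) / α) * FF 1 X) →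
        ¬ Prime ((α : ℤ) * n + j)) ∧
      (∀ i j : ℕ, i < k → 1 ≤ j → j ≤ J → ¬ Prime ((α : ℤ) * n + j * t i j)) ∧
      ∀ b ∈ B, ¬ Prime ((α : ℤ) * n + b) := by
  obtain ⟨c₁, hc₁, X₁, hcore⟩ := core (D + 1)
  obtain ⟨y₀, hmed⟩ := card_med
  obtain ⟨c₂, hc₂, X₂, hfacts⟩ := facts (1000 / c₁ + 10 * |y₀| + 10)
  set c : ℝ := min (1 / 10) (c₁ / 1000) with hc
  have hc0 : 0 < c := by positivity
  have hc1 : c ≤ 1 / 10 := min_le_left _ _
  have hc2 : 1000 * c ≤ c₁ := by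
    have : c ≤ c₁ / 1000 := min_le_right _ _
    linarith
  have hyab : 0 ≤ |y₀| := abs_nonneg _
  have hc1' : 0 < 1000 / c₁ := by positivity
  refine ⟨c, hc0, max X₁ X₂, ?_⟩
  intro X hX α hα1 hαL k J t B hJ hkJ ht hB hBb z
  have hX1 : X₁ ≤ X := (le_max_left _ _).trans hX
  obtain ⟨hX0, g1, g2, g3, g4, g5, g6, g7, g8, g9, g10, g11, g12, g13, g14⟩ :=
    hfacts X ((le_max_right _ _).trans hX)
  set L1 := Real.log X with hL1
  set u₂ := Real.log L1 with hu₂
  set u₃ := Real.log u₂ with hu₃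
  set u₄ := Real.log u₃ with hu₄
  set y := L1 / 10 with hy
  have hL1p : 0 ≤ L1 := by linarith
  have hy0 : 0 < y := by rw [hy]; linarith
  have hu₃0 : 0 < u₃ := by linarith
  have hu₂0 : 0 < u₂ := by linarith
  have hu₄0 : 0 < u₄ := by linarith
  have hα0 : (0 : ℝ) < α := by exact_mod_cast (by omega : 0 < α)
  have hφ0 : (0 : ℝ) < (Nat.totient α : ℝ) := by exact_mod_cast Nat.totient_pos.2 (by omega)
  set ρ : ℝ := (Nat.totient α : ℝ) / α with hρ
  have hρ0 : 0 < ρ := by positivity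
  have hρ1 : ρ ≤ 1 := by
    rw [hρ, div_le_one hα0]
    exact_mod_cast Nat.totient_le α
  have hFF : FF 1 X = L1 * (u₂ * u₄ / u₃) * (u₂ / u₃) := by
    unfold FF
    rw [← hL1, ← hu₂, ← hu₃, ← hu₄]
    field_simp
    ring
  have hq1 : u₂ * u₄ / u₃ ≤ u₂ := by
    rw [div_le_iff₀ hu₃0]
    gcongr
  have hq2 : u₂ / u₃ ≤ u₂ := div_le_self hu₂0.le (by linarith)
  have hF2 : c * (ρ * FF 1 X) ≤ L1 * u₂ ^ 2 / 10 := by
    rw [hFF]
    calc c * (ρ * (L1 * (u₂ * u₄ / u₃) * (u₂ / u₃))) ≤ 1 / 10 * (1 * (L1 * u₂ * u₂)) := by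
          gcongr
      _ = _ := by ring
  have hB2 : c * (ρ * (L1 * (u₂ * u₄ / u₃))) ≤ L1 * u₂ ^ 2 / 10 := by
    calc c * (ρ * (L1 * (u₂ * u₄ / u₃))) ≤ 1 / 10 * (1 * (L1 * u₂)) := by gcongr
      _ ≤ 1 / 10 * (1 * (L1 * u₂ ^ 2)) := by
          have : u₂ ≤ u₂ ^ 2 := by nlinarith
          gcongr
      _ = _ := by ring
  have hu2sq : 160 ≤ u₂ ^ 2 := by
    calc (160 : ℝ) ≤ 160 ^ 2 := by norm_num
      _ ≤ u₂ ^ 2 := by gcongr
  have hLu : 160 * L1 ≤ L1 * u₂ ^ 2 := by nlinarith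
  have hLL : L1 * u₂ ^ 2 ≤ L1 ^ 2 := by
    have h1 : u₂ ^ 2 ≤ u₂ ^ 3 := pow_le_pow_right₀ (by linarith) (by norm_num)
    calc L1 * u₂ ^ 2 ≤ L1 * L1 := by gcongr; linarith
      _ = L1 ^ 2 := by ring
  set T : Finset ℤ := (range k ×ˢ Icc 1 J).image (fun q : ℕ × ℕ => (q.2 : ℤ) * t q.1 q.2) with hT
  set F := c * (ρ * FF 1 X) with hF
  have hFF0 : 0 < FF 1 X := by rw [hFF]; positivity
  have hF0 : 0 < F := by positivity
  set L : ℕ := ⌊F + L1⌋₊ with hLdef
  have hLF : (L : ℝ) ≤ F + L1 := Nat.floor_le (by linarith)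
  have hLF2 : F + L1 < L + 1 := Nat.lt_floor_add_one _
  set I : Finset ℤ := Icc (-(L : ℤ)) L with hI
  set A : Finset ℤ := (I ∪ T) ∪ B with hA
  have hIcard : (I.card : ℝ) = 2 * L + 1 := by
    rw [hI, Int.card_Icc]
    have : ((L : ℤ) + 1 - -(L : ℤ)).toNat = 2 * L + 1 := by omega
    rw [this]
    push_cast
    ring
  have hTcard : (T.card : ℝ) ≤ (k : ℝ) * J := by
    have h1 : T.card ≤ k * J := by
      refine card_image_le.trans ?_
      rw [card_product, card_range, Nat.card_Icc, Nat.add_sub_cancel]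
    exact_mod_cast h1
  have hAcard : (A.card : ℝ) ≤ L1 ^ 2 := by
    have h1 : (A.card : ℝ) ≤ (I.card + T.card) + B.card := by
      exact_mod_cast (card_union_le _ B).trans (Nat.add_le_add_right (card_union_le I T) _)
    have h2 : 0 ≤ L1 * u₂ ^ 2 := by positivity
    have h3 : c * L1 ≤ 1 / 10 * L1 := by gcongr
    linarith
  have hJk : 1 ≤ k → (J : ℝ) ≤ L1 * u₂ ^ 2 / 10 := by
    intro hk
    have h1 : (1 : ℝ) ≤ k := by exact_mod_cast hk
    have h2 : (J : ℝ) ≤ k * J := by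
      have : (0 : ℝ) ≤ J := Nat.cast_nonneg _
      nlinarith
    linarith
  have hL1pow : L1 ^ D + L1 ≤ L1 ^ (D + 1 + 1) := by
    have h1 : L1 ^ D ≤ L1 ^ (D + 1) := pow_le_pow_right₀ (by linarith) (by omega)
    have h2 : L1 ≤ L1 ^ (D + 1) := by
      calc L1 = L1 ^ 1 := (pow_one _).symm
        _ ≤ L1 ^ (D + 1) := pow_le_pow_right₀ (by linarith) (by omega)
    have h3 : L1 ^ (D + 1 + 1) = L1 * L1 ^ (D + 1) := by ring
    have h4 : 10000 * L1 ^ (D + 1) ≤ L1 * L1 ^ (D + 1) := by gcongr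
    have h5 : 0 ≤ L1 ^ (D + 1) := by positivity
    linarith
  have hsqexp : L1 ^ 2 ≤ Real.exp L1 := by
    have h6 := Real.pow_div_factorial_le_exp L1 (by linarith) 3
    have h7 : (Nat.factorial 3 : ℝ) = 6 := by norm_num [Nat.factorial]
    rw [h7] at h6
    refine le_trans ?_ h6
    rw [le_div_iff₀ (by norm_num)]
    have : 0 ≤ L1 ^ 2 := by positivity
    nlinarith
  have hL1D : 0 ≤ L1 ^ D := by positivity
  have hAb : ∀ a ∈ A, |(a : ℝ)| ≤ Real.exp (L1 ^ (D + 1 + 1)) := by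
    intro a ha
    rw [hA, mem_union, mem_union] at ha
    rcases ha with (ha | ha) | ha
    · rw [hI, mem_Icc] at ha
      have h1 : |(a : ℝ)| ≤ L := by
        rw [abs_le]
        constructor
        · have : ((-(L : ℤ) : ℤ) : ℝ) ≤ a := by exact_mod_cast ha.1
          push_cast at this
          linarith
        · have : (a : ℝ) ≤ ((L : ℤ) : ℝ) := by exact_mod_cast ha.2
          push_cast at this
          linarith
      have h2 : (L : ℝ) ≤ L1 ^ 2 := by
        have h8 : 0 ≤ L1 * u₂ ^ 2 := by positivity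
        linarith
      calc |(a : ℝ)| ≤ Real.exp L1 := by linarith
        _ ≤ _ := Real.exp_le_exp.2 (by linarith)
    · rw [hT, mem_image] at ha
      obtain ⟨⟨i, j⟩, hij, rfl⟩ := ha
      rw [mem_product, mem_range, mem_Icc] at hij
      obtain ⟨hi, hj1, hj2⟩ := hij
      have h1 := ht i j hi hj1 hj2
      have h2 : (j : ℝ) ≤ Real.exp L1 := by
        have h3 : (j : ℝ) ≤ J := by exact_mod_cast hj2
        have h4 := hJk (by omega)
        have h8 : 0 ≤ L1 * u₂ ^ 2 := by positivity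
        linarith
      push_cast
      rw [abs_mul, abs_of_nonneg (Nat.cast_nonneg j : (0 : ℝ) ≤ (j : ℝ))]
      calc (j : ℝ) * |(t i j : ℝ)| ≤ Real.exp L1 * Real.exp (L1 ^ D) := by gcongr
        _ = Real.exp (L1 ^ D + L1) := by rw [← Real.exp_add, add_comm]
        _ ≤ _ := Real.exp_le_exp.2 hL1pow
    · refine (hBb a ha).trans (Real.exp_le_exp.2 ?_)
      linarith
  have hαL' : Real.log α ≤ L1 ^ (D + 1 + 1) := by linarith
  set A0 := A.filter (fun a => ∀ p : ℕ, p.Prime → (p : ℝ) ≤ y →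
      WW y < Real.log p → ¬ (p : ℤ) ∣ a) with hA0def
  have hA0c : (A0.card : ℝ) ≤ (2 * (NM y L).card + 1) + (k : ℝ) * (NM y J).card + B.card := by
    have h1 : A0 ⊆ ((((NM y L).image (fun m : ℕ => (m : ℤ))) ∪
        ((NM y L).image (fun m : ℕ => -(m : ℤ)))) ∪ {0}) ∪
        (range k ×ˢ NM y J).image (fun q : ℕ × ℕ => (q.2 : ℤ) * t q.1 q.2) ∪ B := by
      intro a ha
      rw [hA0def, mem_filter, hA, mem_union, mem_union] at ha
      obtain ⟨ha1, ha2⟩ := ha
      rw [mem_union, mem_union]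
      rcases ha1 with (ha1 | ha1) | ha1
      · left; left
        rw [hI, mem_Icc] at ha1
        rw [mem_union, mem_union, mem_image, mem_image, mem_singleton]
        by_cases h0 : a = 0
        · right; exact h0
        · left
          have hN : a.natAbs ∈ NM y L := by
            rw [NM, mem_filter, mem_Icc]
            refine ⟨⟨by omega, by omega⟩, fun p hp hpa => ?_⟩
            by_contra hcon
            push Not at hcon
            exact ha2 p hp hcon.1 hcon.2 (Int.natCast_dvd.2 hpa)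
          rcases le_total 0 a with h | h
          · left; exact ⟨a.natAbs, hN, by omega⟩
          · right; exact ⟨a.natAbs, hN, by omega⟩
      · left; right
        rw [hT, mem_image] at ha1
        obtain ⟨⟨i, j⟩, hij, rfl⟩ := ha1
        rw [mem_product, mem_range, mem_Icc] at hij
        refine mem_image.2 ⟨(i, j), ?_, rfl⟩
        rw [mem_product, mem_range, NM, mem_filter, mem_Icc]
        refine ⟨hij.1, hij.2, fun p hp hpj => ?_⟩
        by_contra hcon
        push Not at hcon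
        exact ha2 p hp hcon.1 hcon.2 (Dvd.dvd.mul_right (Int.natCast_dvd_natCast.2 hpj) _)
      · right; exact ha1
    have h2 : A0.card ≤ (2 * (NM y L).card + 1) + k * (NM y J).card + B.card := by
      refine (card_le_card h1).trans ((card_union_le _ _).trans ?_)
      refine Nat.add_le_add_right ((card_union_le _ _).trans ?_) _
      have e0 := card_union_le (((NM y L).image (fun m : ℕ => (m : ℤ))) ∪
        ((NM y L).image (fun m : ℕ => -(m : ℤ)))) ({0} : Finset ℤ)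
      have e1 := card_union_le ((NM y L).image (fun m : ℕ => (m : ℤ)))
        ((NM y L).image (fun m : ℕ => -(m : ℤ)))
      have e2 : ((NM y L).image (fun m : ℕ => (m : ℤ))).card ≤ (NM y L).card := card_image_le
      have e3 : ((NM y L).image (fun m : ℕ => -(m : ℤ))).card ≤ (NM y L).card := card_image_le
      rw [card_singleton] at e0
      have h3 : ((range k ×ˢ NM y J).image (fun q : ℕ × ℕ => (q.2 : ℤ) * t q.1 q.2)).card ≤
          k * (NM y J).card := by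
        refine card_image_le.trans ?_
        rw [card_product, card_range]
      omega
    exact_mod_cast h2
  have hyy : y₀ ≤ y := by
    have := le_abs_self y₀
    linarith
  have hrange : ∀ M : ℝ, M ≤ L1 * u₂ ^ 2 → M ≤ y * (Real.log y) ^ 4 := by
    intro M hM
    have h1 : (u₂ / 2) ^ 4 ≤ (Real.log y) ^ 4 := by gcongr
    have h2 : 10 * u₂ ^ 2 ≤ (u₂ / 2) ^ 4 := by
      have e1 : 0 ≤ u₂ ^ 2 := by positivity
      have e : (u₂ / 2) ^ 4 = u₂ ^ 2 * u₂ ^ 2 / 16 := by ring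
      rw [e, le_div_iff₀ (by norm_num)]
      calc 10 * u₂ ^ 2 * 16 = 160 * u₂ ^ 2 := by ring
        _ ≤ u₂ ^ 2 * u₂ ^ 2 := mul_le_mul_of_nonneg_right hu2sq e1
    have h3 : L1 = 10 * y := by rw [hy]; ring
    calc M ≤ L1 * u₂ ^ 2 := hM
      _ = y * (10 * u₂ ^ 2) := by rw [h3]; ring
      _ ≤ y * (Real.log y) ^ 4 := by gcongr; linarith
  have hcnt : ∀ M : ℕ, L1 / 10 ≤ M → (M : ℝ) ≤ L1 * u₂ ^ 2 →
      ((NM y M).card : ℝ) ≤ 120 * M * (u₃ / u₂) := by
    intro M hM1 hM2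
    have hcm := hmed y hyy M (by rw [hy]; exact hM1) (hrange M hM2)
    have h1 : 60 * (M : ℝ) * Real.log (Real.log y) / Real.log y ≤
        60 * M * u₃ / (u₂ / 2) := by
      apply div_le_div₀ (by positivity) _ (by positivity) g11
      gcongr
    refine (hcm.trans h1).trans (le_of_eq ?_)
    field_simp
    ring
  have hLNM : ((NM y L).card : ℝ) ≤ 120 * (F + L1) * (u₃ / u₂) := by
    refine (hcnt L (by linarith) (by linarith)).trans ?_
    gcongr
  have hkNM : (k : ℝ) * (NM y J).card ≤ 120 * ((k : ℝ) * J) * (u₃ / u₂) := by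
    rcases Nat.eq_zero_or_pos k with hk | hk
    · rw [hk]; simp
    · have hJ2 := hJk hk
      have h8 : 0 ≤ L1 * u₂ ^ 2 := by positivity
      calc (k : ℝ) * (NM y J).card ≤ k * (120 * J * (u₃ / u₂)) := by
            gcongr
            exact hcnt J (by linarith) (by linarith)
        _ = _ := by ring
  have hfin : (A0.card : ℝ) ≤ c₁ * (ρ * (L1 * (u₂ * u₄ / u₃)) + L1) := by
    have h1 : 120 * ((k : ℝ) * J) * (u₃ / u₂) ≤ 120 * F * (u₃ / u₂) := by
      gcongr
    have h2 : F * (u₃ / u₂) = c * (ρ * (L1 * (u₂ * u₄ / u₃))) := by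
      rw [hF, hFF]
      field_simp
    have h3 : 0 ≤ ρ * (L1 * (u₂ * u₄ / u₃)) := by positivity
    have hr3 : u₃ / u₂ ≤ c₁ / 1000 := by
      rw [div_le_div_iff₀ hu₂0 (by norm_num)]
      have h1 : 1000 / c₁ * u₃ ≤ u₂ := by
        have h2 : 1000 / c₁ * u₃ ≤ (1000 / c₁ + 10 * |y₀| + 10) * u₃ := by
          apply mul_le_mul_of_nonneg_right _ hu₃0.le
          linarith
        linarith
      rw [div_mul_eq_mul_div, div_le_iff₀ hc₁] at h1
      linarith
    have h4 : L1 * (u₃ / u₂) ≤ L1 * (c₁ / 1000) := by gcongr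
    have h5 : 1 ≤ c₁ / 1000 * L1 := by
      have h5 : 1000 / c₁ ≤ L1 := by linarith
      rw [div_le_iff₀ hc₁] at h5
      linarith
    have h6 : 1000 * c * (ρ * (L1 * (u₂ * u₄ / u₃))) ≤ c₁ * (ρ * (L1 * (u₂ * u₄ / u₃))) := by
      gcongr
    have h7 : 1000 * c * L1 ≤ c₁ * L1 := by gcongr
    have h9 : 0 ≤ c * (ρ * (L1 * (u₂ * u₄ / u₃))) := by positivity
    have h10 : 0 ≤ c₁ * L1 := by positivity
    have e1 : 120 * (F + L1) * (u₃ / u₂) = 120 * (F * (u₃ / u₂)) + 120 * (L1 * (u₃ / u₂)) := by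
      ring
    have e2 : 120 * F * (u₃ / u₂) = 120 * (F * (u₃ / u₂)) := by ring
    have e3 : L1 * (c₁ / 1000) = c₁ * L1 / 1000 := by ring
    have e4 : c₁ / 1000 * L1 = c₁ * L1 / 1000 := by ring
    have e5 : 1000 * c * (ρ * (L1 * (u₂ * u₄ / u₃))) =
        1000 * (c * (ρ * (L1 * (u₂ * u₄ / u₃)))) := by ring
    have e6 : c₁ * (ρ * (L1 * (u₂ * u₄ / u₃)) + L1) =
        c₁ * (ρ * (L1 * (u₂ * u₄ / u₃))) + c₁ * L1 := by ring
    have e7 : c * (ρ * (L1 * (u₂ * u₄ / u₃)) + L1) =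
        c * (ρ * (L1 * (u₂ * u₄ / u₃))) + c * L1 := by ring
    have e8 : 1000 * c * L1 = 1000 * (c * L1) := by ring
    rw [e1, h2] at hLNM
    rw [e2, h2] at h1
    rw [e3] at h4
    rw [e4] at h5
    rw [e5] at h6
    rw [e8] at h7
    rw [e7] at hB
    rw [e6]
    linarith
  obtain ⟨n, hn1, hn2, hn3⟩ := hcore X hX1 α hα1 hαL' A hAcard hAb hfin z
  refine ⟨n, hn1, hn2, fun j hj => ?_, fun i j hi hj1 hj2 => ?_, fun b hb => ?_⟩
  · apply hn3
    rw [hA, mem_union, mem_union]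
    left; left
    rw [hI, mem_Icc]
    rw [abs_le] at hj
    have h3 : (-((L : ℝ) + 1)) < j := by linarith [hj.1]
    have h4 : (j : ℝ) < (L : ℝ) + 1 := by linarith [hj.2]
    have h5 : (-((L : ℤ) + 1)) < j := by exact_mod_cast h3
    have h6 : j < (L : ℤ) + 1 := by exact_mod_cast h4
    constructor <;> omega
  · apply hn3
    rw [hA, mem_union, mem_union]
    left; right
    rw [hT, mem_image]
    exact ⟨(i, j), by rw [mem_product, mem_range, mem_Icc]; exact ⟨hi, hj1, hj2⟩, rfl⟩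
  · apply hn3
    rw [hA, mem_union]
    right; exact hb

end Pool.Agent.Q16.MT
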